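import Mathlib
import Pool.Agent.X205.NIU.Ultra

/-!
Problem MP_6da9ed_an, Q1 (negative answer, real scalars).

There is a real Banach space `X` with `n(X) ≥ 1/2000` such that `n(X_U) = 0` for every free
ultrafilter `U` on the natural numbers.

The space is the `ℓ_∞`-sum of finite-dimensional spaces `ℂ ⊕ V_n` with norm
`|f - ω_n(v)| + q_n(v)`, where `V_n` is the zero-sum hyperplane of `ℝ^(n+1)`, `q_n` is a norm
equivalent to the `ℓ_1`-norm and `ω_n` is a truncated and scaled form of Ribe's functional
`∑ v_i log |v_i|`.  The functionals `ω_n` are asymptotically additive but stay at a fixed distance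
from the linear ones: the first property makes `(f, v) ↦ (i (f - ω_n(v)), 0)` linear in the
ultrapower, the second keeps the numerical indices of the blocks away from zero.
-/

set_option autoImplicit false

open scoped ENNReal
open Filter Topology

namespace Pool.Agent.Results.MP_6da9ed_an.UltrapowerIndexDrops

open Pool.Agent.X205.NIU

theorem result : ∃ (X : Type) (_ : NormedAddCommGroup X) (_ : NormedSpace ℝ X),
    CompleteSpace X ∧ 1 / 2000 ≤ numIndex X ∧
    ∀ U : Ultrafilter ℕ, (∀ n : ℕ, {n} ∉ U) →
      (∀ x : lp (fun _ : ℕ => X) ∞,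
        Tendsto (fun k => ‖x k‖) U (𝓝 ‖(Submodule.Quotient.mk x : Ultrapower U X)‖)) ∧
      numIndex (Ultrapower U X) = 0 := by
  have := XX_nontrivial
  exact ⟨XX, inferInstance, inferInstance, XX_complete, numIndex_ge (by norm_num) Prp_XX,
    fun U hU => ⟨fun x => tendsto_norm_mk U x, numIndex_ultrapower U hU⟩⟩

end Pool.Agent.Results.MP_6da9ed_an.UltrapowerIndexDrops
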